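import Pool.Agent.TH337.LD.Basic

/-!
Analytic continuation of the Fourier transform of an exponentially decaying function.
-/

namespace Pool.Agent.TH337.LD

open MeasureTheory Filter Topology Set Metric FourierTransform
open scoped ENNReal Real RealInnerProductSpace

variable {d : ℕ}

/-- the Fourier transform along a complex line -/
noncomputable def GG (v : E d → ℂ) (ξ e : E d) (z : ℂ) : ℂ :=
  ∫ x, Complex.exp (-(2 * π * (⟪x, ξ⟫ + z * ⟪x, e⟫) * Complex.I)) * v x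

lemma GG_real (v : E d → ℂ) (ξ e : E d) (t : ℝ) : GG v ξ e t = 𝓕 v (ξ + t • e) := by
  rw [fourier_eq, GG]
  apply integral_congr_ae
  filter_upwards with x
  congr 2
  rw [inner_add_right, inner_smul_right]
  push_cast
  ring

lemma norm_ker {e : E d} (he : ‖e‖ = 1) {δ : ℝ} (ξ x : E d) {z : ℂ}
    (hz : |z.im| < δ / (4 * π)) :
    ‖Complex.exp (-(2 * π * (⟪x, ξ⟫ + z * ⟪x, e⟫) * Complex.I))‖ ≤ Real.exp (δ / 2 * ‖x‖) := by
  rw [Complex.norm_exp]
  apply Real.exp_le_exp.2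
  have h1 : (-(2 * (π:ℂ) * ((⟪x, ξ⟫ : ℝ) + z * (⟪x, e⟫ : ℝ)) * Complex.I)).re =
      2 * π * (z.im * ⟪x, e⟫) := by
    simp [Complex.mul_re, Complex.mul_im]
  rw [h1]
  have h2 : |⟪x, e⟫| ≤ ‖x‖ := by
    have := abs_real_inner_le_norm x e
    rwa [he, mul_one] at this
  have h3 : z.im * ⟪x, e⟫ ≤ |z.im| * ‖x‖ := by
    refine (le_abs_self _).trans ?_
    rw [abs_mul]
    exact mul_le_mul_of_nonneg_left h2 (abs_nonneg _)
  have hπ := Real.pi_pos
  rw [lt_div_iff₀ (by positivity)] at hz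
  have h4 := norm_nonneg x
  have h5 : 2 * π * (z.im * ⟪x, e⟫) ≤ 2 * π * (|z.im| * ‖x‖) :=
    mul_le_mul_of_nonneg_left h3 (by positivity)
  have h6 : 2 * π * (|z.im| * ‖x‖) ≤ δ / 2 * ‖x‖ := by
    have : 2 * π * |z.im| ≤ δ / 2 := by linarith
    calc 2 * π * (|z.im| * ‖x‖) = (2 * π * |z.im|) * ‖x‖ := by ring
      _ ≤ _ := mul_le_mul_of_nonneg_right this h4
  linarith

lemma GG_diff {δ : ℝ} (hδ : 0 < δ) {v : E d → ℂ} (hv : Dec δ v) {e : E d} (he : ‖e‖ = 1)
    (ξ : E d) : DifferentiableOn ℂ (GG v ξ e) {z : ℂ | |z.im| < δ / (4 * π)} := by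
  intro z₀ hz₀
  have hopen : IsOpen {z : ℂ | |z.im| < δ / (4 * π)} :=
    isOpen_lt (by fun_prop) continuous_const
  obtain ⟨K, hK0, hK⟩ := hv.nonneg
  have hπ := Real.pi_pos
  have hbd : Integrable (fun x : E d => 2 * π * K * (4 / δ) * Real.exp (-(δ / 4 * ‖x‖))) :=
    (exp_int (by positivity)).const_mul _
  have key := hasDerivAt_integral_of_dominated_loc_of_deriv_le (μ := (volume : Measure (E d)))
    (F := fun z x => Complex.exp (-(2 * π * (⟪x, ξ⟫ + z * ⟪x, e⟫) * Complex.I)) * v x)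
    (F' := fun z x => -(2 * π * ⟪x, e⟫ * Complex.I) *
      Complex.exp (-(2 * π * (⟪x, ξ⟫ + z * ⟪x, e⟫) * Complex.I)) * v x)
    (x₀ := z₀) (s := {z : ℂ | |z.im| < δ / (4 * π)})
    (bound := fun x => 2 * π * K * (4 / δ) * Real.exp (-(δ / 4 * ‖x‖)))
    (hopen.mem_nhds hz₀) ?_ ?_ ?_ ?_ hbd ?_
  · exact key.2.differentiableAt.differentiableWithinAt
  · filter_upwards with z
    have := hv.1
    exact Measurable.aestronglyMeasurable (by fun_prop)
  · have hm : AEStronglyMeasurable (fun x => Complex.exp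
        (-(2 * π * (⟪x, ξ⟫ + z₀ * ⟪x, e⟫) * Complex.I)) * v x) volume := by
      have := hv.1
      exact Measurable.aestronglyMeasurable (by fun_prop)
    refine ((exp_int (d := d) (δ := δ / 2) (by positivity)).const_mul K).mono' hm ?_
    filter_upwards with x
    rw [norm_mul]
    calc _ ≤ Real.exp (δ / 2 * ‖x‖) * (K * Real.exp (-(δ * ‖x‖))) :=
          mul_le_mul (norm_ker he ξ x hz₀) (hK x) (norm_nonneg _) (Real.exp_pos _).le
      _ = K * Real.exp (-(δ / 2 * ‖x‖)) := by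
          rw [mul_left_comm, ← Real.exp_add]
          congr 2
          ring
  · have := hv.1
    exact Measurable.aestronglyMeasurable (by fun_prop)
  · filter_upwards with x
    intro z hz
    rw [norm_mul, norm_mul]
    have h2 : |⟪x, e⟫| ≤ ‖x‖ := by
      have := abs_real_inner_le_norm x e
      rwa [he, mul_one] at this
    have h3 : ‖-(2 * (π:ℂ) * (⟪x, e⟫ : ℝ) * Complex.I)‖ ≤ 2 * π * ‖x‖ := by
      rw [norm_neg, norm_mul, norm_mul, norm_mul, Complex.norm_I, mul_one, Complex.norm_real,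
        Complex.norm_real, Real.norm_eq_abs, Real.norm_eq_abs, abs_of_pos hπ]
      simp only [Complex.norm_ofNat]
      exact mul_le_mul_of_nonneg_left h2 (by positivity)
    have h4 : ‖x‖ ≤ 4 / δ * Real.exp (δ / 4 * ‖x‖) := by
      have h5 := Real.add_one_le_exp (δ / 4 * ‖x‖)
      have h6 : δ / 4 * ‖x‖ ≤ Real.exp (δ / 4 * ‖x‖) := by linarith
      calc ‖x‖ = 4 / δ * (δ / 4 * ‖x‖) := by field_simp
        _ ≤ _ := mul_le_mul_of_nonneg_left h6 (by positivity)
    calc ‖-(2 * (π:ℂ) * (⟪x, e⟫ : ℝ) * Complex.I)‖ *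
          ‖Complex.exp (-(2 * π * (⟪x, ξ⟫ + z * ⟪x, e⟫) * Complex.I))‖ * ‖v x‖
        ≤ (2 * π * (4 / δ * Real.exp (δ / 4 * ‖x‖))) * Real.exp (δ / 2 * ‖x‖) *
          (K * Real.exp (-(δ * ‖x‖))) := by
          apply mul_le_mul _ (hK x) (norm_nonneg _) (by positivity)
          apply mul_le_mul _ (norm_ker he ξ x hz) (norm_nonneg _) (by positivity)
          exact h3.trans (mul_le_mul_of_nonneg_left h4 (by positivity))
      _ = 2 * π * K * (4 / δ) * (Real.exp (δ / 4 * ‖x‖) * Real.exp (δ / 2 * ‖x‖) *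
          Real.exp (-(δ * ‖x‖))) := by ring
      _ = 2 * π * K * (4 / δ) * Real.exp (-(δ / 4 * ‖x‖)) := by
          rw [← Real.exp_add, ← Real.exp_add]
          congr 2
          ring
  · filter_upwards with x
    intro z _
    have h1 : HasDerivAt (fun z : ℂ => -(2 * (π:ℂ) * ((⟪x, ξ⟫ : ℝ) + z * (⟪x, e⟫ : ℝ)) * Complex.I))
        (-(2 * π * (⟪x, e⟫ : ℝ) * Complex.I)) z := by
      have h2 := ((((hasDerivAt_id z).mul_const ((⟪x, e⟫ : ℝ) : ℂ)).const_add
        ((⟪x, ξ⟫ : ℝ) : ℂ)).const_mul (2 * (π:ℂ))).mul_const Complex.I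
      have h3 := h2.neg
      convert! h3 using 1
      ring
    have h2 := (h1.cexp).mul_const (v x)
    convert! h2 using 1
    ring

theorem fourier_zero {δ : ℝ} (hδ : 0 < δ) {v : E d → ℂ} (hv : Dec δ v) {e : E d} (he : ‖e‖ = 1)
    {a s' : ℝ} (ha : 0 < a) (hs' : s' < 2)
    (hsg : ∀ ξ : E d, ‖sg (a • e) ξ‖ = 2 * |Real.sin (π * (a * ⟪e, ξ⟫))|)
    (h : ∀ ξ, s' < ‖sg (a • e) ξ‖ → 𝓕 v ξ = 0) (ξ : E d) : 𝓕 v ξ = 0 := by
  set Ω : Set ℂ := {z : ℂ | |z.im| < δ / (4 * π)} with hΩ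
  have hπ := Real.pi_pos
  have hopen : IsOpen Ω := isOpen_lt (by fun_prop) continuous_const
  have hconv : Convex ℝ Ω := by
    have : Ω = Complex.imLm ⁻¹' (ball (0:ℝ) (δ / (4 * π))) := by
      ext z
      simp [hΩ, Real.norm_eq_abs]
    rw [this]
    exact (convex_ball _ _).linear_preimage _
  have hana : AnalyticOnNhd ℂ (GG v ξ e) Ω := (GG_diff hδ hv he ξ).analyticOnNhd hopen
  have hmemR : ∀ t : ℝ, (t : ℂ) ∈ Ω := by
    intro t
    show |((t:ℂ)).im| < δ / (4 * π)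
    rw [Complex.ofReal_im, abs_zero]
    positivity
  set t₀ : ℝ := 1 / (2 * a) - ⟪e, ξ⟫ with ht₀
  have hev : ∀ᶠ t : ℝ in 𝓝 t₀, GG v ξ e t = 0 := by
    have hcont : Continuous fun t : ℝ => 2 * |Real.sin (π * (a * ⟪e, ξ + t • e⟫))| := by
      fun_prop
    have hval : 2 * |Real.sin (π * (a * ⟪e, ξ + t₀ • e⟫))| = 2 := by
      have e1 : π * (a * ⟪e, ξ + t₀ • e⟫) = π / 2 := by
        rw [inner_add_right, inner_smul_right, real_inner_self_eq_norm_sq, he, ht₀]
        field_simp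
        ring
      rw [e1, Real.sin_pi_div_two, abs_one, mul_one]
    have h1 : ∀ᶠ t : ℝ in 𝓝 t₀, s' < 2 * |Real.sin (π * (a * ⟪e, ξ + t • e⟫))| := by
      have h2 : s' < 2 * |Real.sin (π * (a * ⟪e, ξ + t₀ • e⟫))| := by
        rw [hval]
        exact hs'
      exact hcont.continuousAt.eventually_const_lt h2
    filter_upwards [h1] with t ht
    rw [GG_real]
    apply h
    rwa [hsg]
  have hfreq : ∃ᶠ z in 𝓝[≠] (t₀ : ℂ), GG v ξ e z = 0 := by
    have h1 : Tendsto (fun t : ℝ => (t : ℂ)) (𝓝[≠] t₀) (𝓝[≠] (t₀ : ℂ)) := by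
      apply tendsto_nhdsWithin_of_tendsto_nhds_of_eventually_within
      · exact (Complex.continuous_ofReal.tendsto t₀).mono_left nhdsWithin_le_nhds
      · filter_upwards [self_mem_nhdsWithin] with t ht
        simpa using ht
    have h2 : ∃ᶠ t : ℝ in 𝓝[≠] t₀, GG v ξ e t = 0 := by
      apply Eventually.frequently
      exact hev.filter_mono nhdsWithin_le_nhds
    exact h1.frequently h2
  have hzero := hana.eqOn_zero_of_preconnected_of_frequently_eq_zero hconv.isPreconnected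
    (hmemR t₀) hfreq
  have h0 := hzero (hmemR 0)
  have h1 := GG_real v ξ e 0
  rw [zero_smul, add_zero] at h1
  rw [← h1]
  exact h0

end Pool.Agent.TH337.LD
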