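import Mathlib
import Pool.Agent.H153R4.Pl

/-!
Exponentially decaying functions on Euclidean space: integrability, Fourier transform, shifts.
-/

namespace Pool.Agent.TH337.LD

open MeasureTheory Filter Topology Set Metric FourierTransform
open scoped ENNReal Real RealInnerProductSpace

/-- Euclidean space -/
abbrev E (d : ℕ) := EuclideanSpace ℝ (Fin d)

variable {d : ℕ}

/-- measurable functions bounded by a decaying exponential -/
def Dec (δ : ℝ) (f : E d → ℂ) : Prop :=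
  Measurable f ∧ ∃ K : ℝ, ∀ x, ‖f x‖ ≤ K * Real.exp (-(δ * ‖x‖))

lemma exp_int {δ : ℝ} (hδ : 0 < δ) : Integrable (fun x : E d => Real.exp (-(δ * ‖x‖))) := by
  have h1 : Integrable (fun x : E d => (1 + ‖x‖) ^ (-((d : ℝ) + 1))) := by
    apply integrable_one_add_norm
    rw [finrank_euclideanSpace_fin]
    linarith
  have h2 := h1.const_mul (Real.exp δ * ((d + 1).factorial : ℝ) / δ ^ (d + 1))
  refine h2.mono' (by fun_prop) ?_
  filter_upwards with x
  rw [Real.norm_eq_abs, abs_of_pos (Real.exp_pos _)]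
  have h0 : 0 ≤ ‖x‖ := norm_nonneg x
  have hpos : 0 < 1 + ‖x‖ := by linarith
  have h3 := Real.pow_div_factorial_le_exp (δ * (1 + ‖x‖)) (by positivity) (d + 1)
  have e1 : (1 + ‖x‖) ^ (-((d : ℝ) + 1)) = ((1 + ‖x‖) ^ (d + 1))⁻¹ := by
    rw [Real.rpow_neg hpos.le]
    congr 1
    rw [← Real.rpow_natCast]
    congr 1
    push_cast
    ring
  have e2 : Real.exp (-(δ * ‖x‖)) = Real.exp δ * (Real.exp (δ * (1 + ‖x‖)))⁻¹ := by
    rw [← Real.exp_neg, ← Real.exp_add]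
    congr 1
    ring
  rw [e1, e2]
  have h4 : 0 < (δ * (1 + ‖x‖)) ^ (d + 1) / ((d + 1).factorial : ℝ) := by positivity
  have h5 := inv_anti₀ h4 h3
  calc Real.exp δ * (Real.exp (δ * (1 + ‖x‖)))⁻¹
      ≤ Real.exp δ * ((δ * (1 + ‖x‖)) ^ (d + 1) / ((d + 1).factorial : ℝ))⁻¹ :=
        mul_le_mul_of_nonneg_left h5 (Real.exp_pos _).le
    _ = _ := by
        rw [mul_pow]
        field_simp

lemma Dec.nonneg {δ : ℝ} {f : E d → ℂ} (h : Dec δ f) :
    ∃ K : ℝ, 0 ≤ K ∧ ∀ x, ‖f x‖ ≤ K * Real.exp (-(δ * ‖x‖)) := by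
  obtain ⟨_, K, hK⟩ := h
  refine ⟨K, ?_, hK⟩
  have := hK 0
  have h1 := norm_nonneg (f 0)
  have h2 := Real.exp_pos (-(δ * ‖(0 : E d)‖))
  by_contra hc
  push Not at hc
  nlinarith

lemma Dec.integrable {δ : ℝ} {f : E d → ℂ} (h : Dec δ f) (hδ : 0 < δ) : Integrable f := by
  obtain ⟨hm, K, hK⟩ := h
  exact ((exp_int hδ).const_mul K).mono' hm.aestronglyMeasurable (Eventually.of_forall hK)

lemma Dec.memLp {δ : ℝ} {f : E d → ℂ} (h : Dec δ f) (hδ : 0 < δ) : MemLp f 2 := by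
  have hint := h.integrable hδ
  obtain ⟨K, hK0, hK⟩ := h.nonneg
  rw [memLp_two_iff_integrable_sq_norm h.1.aestronglyMeasurable]
  refine ((exp_int (d := d) (δ := 2 * δ) (by linarith)).const_mul (K ^ 2)).mono'
    (by have := h.1; fun_prop) ?_
  filter_upwards with x
  rw [Real.norm_eq_abs, abs_of_nonneg (by positivity)]
  calc ‖f x‖ ^ 2 ≤ (K * Real.exp (-(δ * ‖x‖))) ^ 2 := pow_le_pow_left₀ (norm_nonneg _) (hK x) 2
    _ = K ^ 2 * Real.exp (-(2 * δ * ‖x‖)) := by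
        rw [mul_pow, ← Real.exp_nat_mul]
        congr 2
        push_cast
        ring

lemma Dec.bdd_mul {δ : ℝ} {f g : E d → ℂ} (h : Dec δ f) (hg : Measurable g) {M : ℝ}
    (hM : ∀ x, ‖g x‖ ≤ M) : Dec δ (fun x => g x * f x) := by
  obtain ⟨K, hK0, hK⟩ := h.nonneg
  refine ⟨hg.mul h.1, M * K, fun x => ?_⟩
  rw [norm_mul, mul_assoc]
  have hM0 : 0 ≤ M := (norm_nonneg _).trans (hM x)
  exact mul_le_mul (hM x) (hK x) (norm_nonneg _) hM0

lemma Dec.shift {δ : ℝ} (hδ : 0 ≤ δ) {f : E d → ℂ} (h : Dec δ f) (p : E d) :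
    Dec δ (fun x => f (x + p)) := by
  obtain ⟨K, hK0, hK⟩ := h.nonneg
  refine ⟨h.1.comp (measurable_id.add_const p), K * Real.exp (δ * ‖p‖), fun x => ?_⟩
  refine (hK (x + p)).trans ?_
  rw [mul_assoc, ← Real.exp_add]
  apply mul_le_mul_of_nonneg_left _ hK0
  apply Real.exp_le_exp.2
  have h1 : ‖x‖ ≤ ‖x + p‖ + ‖p‖ := by
    have := norm_sub_le (x + p) p
    simpa using this
  nlinarith

lemma Dec.sub {δ : ℝ} {f g : E d → ℂ} (h : Dec δ f) (h' : Dec δ g) :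
    Dec δ (fun x => f x - g x) := by
  obtain ⟨K, hK0, hK⟩ := h.nonneg
  obtain ⟨K', hK0', hK'⟩ := h'.nonneg
  refine ⟨h.1.sub h'.1, K + K', fun x => ?_⟩
  refine (norm_sub_le _ _).trans ?_
  rw [add_mul]
  exact add_le_add (hK x) (hK' x)

lemma Dec.planch {δ : ℝ} {f : E d → ℂ} (h : Dec δ f) (hδ : 0 < δ) :
    Integrable (fun ξ => ‖𝓕 f ξ‖ ^ 2) ∧ ∫ ξ, ‖𝓕 f ξ‖ ^ 2 = ∫ x, ‖f x‖ ^ 2 := by
  have h1 := h.integrable hδ
  have h2 := h.memLp hδ
  have h3 := Pool.Agent.H153R4.plancherel f h1 h2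
  have hcont : Continuous (𝓕 f) :=
    VectorFourier.fourierIntegral_continuous (L := innerₗ (E d)) Real.continuous_fourierChar
      continuous_inner h1
  have hsq : Integrable (fun x => ‖f x‖ ^ 2) :=
    (memLp_two_iff_integrable_sq_norm h2.aestronglyMeasurable).1 h2
  have e : ∀ g : E d → ℂ, ∫⁻ x, ‖g x‖ₑ ^ 2 = ∫⁻ x, ENNReal.ofReal (‖g x‖ ^ 2) := by
    intro g
    apply lintegral_congr
    intro x
    rw [ENNReal.ofReal_pow (norm_nonneg _), ofReal_norm_eq_enorm]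
  rw [e, e] at h3
  have hfin : ∫⁻ ξ, ENNReal.ofReal (‖𝓕 f ξ‖ ^ 2) < ⊤ := by
    rw [h3]
    exact hsq.lintegral_lt_top
  have hI : Integrable (fun ξ => ‖𝓕 f ξ‖ ^ 2) := by
    refine ⟨by fun_prop, ?_⟩
    rw [hasFiniteIntegral_iff_ofReal (Eventually.of_forall fun ξ => by positivity)]
    exact hfin
  refine ⟨hI, ?_⟩
  rw [integral_eq_lintegral_of_nonneg_ae (Eventually.of_forall fun ξ => by positivity)
    hI.aestronglyMeasurable, integral_eq_lintegral_of_nonneg_ae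
    (Eventually.of_forall fun ξ => by positivity) hsq.aestronglyMeasurable, h3]

lemma fourier_cont {δ : ℝ} {f : E d → ℂ} (h : Dec δ f) (hδ : 0 < δ) : Continuous (𝓕 f) :=
  VectorFourier.fourierIntegral_continuous (L := innerₗ (E d)) Real.continuous_fourierChar
      continuous_inner (h.integrable hδ)

lemma fourier_eq (f : E d → ℂ) (ξ : E d) :
    𝓕 f ξ = ∫ x, Complex.exp (-(2 * π * ⟪x, ξ⟫ * Complex.I)) * f x := by
  rw [Real.fourier_eq']
  apply integral_congr_ae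
  filter_upwards with x
  rw [smul_eq_mul]
  congr 2
  push_cast
  ring

/-- the symbol of the difference operator -/
noncomputable def sg (p ξ : E d) : ℂ := Complex.exp (2 * π * ⟪p, ξ⟫ * Complex.I) - 1

lemma fourier_shift {δ : ℝ} {f : E d → ℂ} (h : Dec δ f) (hδ : 0 < δ) (p ξ : E d) :
    𝓕 (fun x => f (x + p) - f x) ξ = sg p ξ * 𝓕 f ξ := by
  have hi : ∀ g : E d → ℂ, Dec δ g →
      Integrable (fun x => Complex.exp (-(2 * π * ⟪x, ξ⟫ * Complex.I)) * g x) := by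
    intro g hg
    refine (hg.integrable hδ).bdd_mul (c := 1) (by fun_prop) (Eventually.of_forall fun x => ?_)
    rw [Complex.norm_exp]
    simp
  rw [fourier_eq, fourier_eq]
  have e1 : (fun x => Complex.exp (-(2 * π * ⟪x, ξ⟫ * Complex.I)) * (f (x + p) - f x)) =
      fun x => Complex.exp (-(2 * π * ⟪x, ξ⟫ * Complex.I)) * f (x + p) -
        Complex.exp (-(2 * π * ⟪x, ξ⟫ * Complex.I)) * f x := by
    funext x
    ring
  rw [e1, integral_sub (hi _ (h.shift hδ.le p)) (hi _ h)]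
  have e2 : ∫ x, Complex.exp (-(2 * π * ⟪x, ξ⟫ * Complex.I)) * f (x + p) =
      Complex.exp (2 * π * ⟪p, ξ⟫ * Complex.I) *
        ∫ x, Complex.exp (-(2 * π * ⟪x, ξ⟫ * Complex.I)) * f x := by
    rw [← integral_const_mul]
    rw [← integral_add_right_eq_self (fun x => Complex.exp (2 * π * ⟪p, ξ⟫ * Complex.I) *
      (Complex.exp (-(2 * π * ⟪x, ξ⟫ * Complex.I)) * f x)) p]
    apply integral_congr_ae
    filter_upwards with x
    rw [← mul_assoc, ← Complex.exp_add]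
    congr 2
    rw [inner_add_left]
    push_cast
    ring
  rw [e2, sg]
  ring

end Pool.Agent.TH337.LD
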