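import Pool.Agent.TH337.LD.Spec

/-!
The energy estimate with a real part of the potential that does not depend on one direction.
-/

namespace Pool.Agent.TH337.LD

open MeasureTheory Filter Topology Set Metric FourierTransform
open scoped ENNReal Real RealInnerProductSpace ComplexConjugate

variable {d : ℕ}

lemma ker_int {δ : ℝ} (hδ : 0 < δ) {f : E d → ℂ} (hf : Dec δ f) (ξ : E d) :
    Integrable (fun x => Complex.exp (-(2 * π * ⟪x, ξ⟫ * Complex.I)) * f x) := by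
  refine (hf.integrable hδ).bdd_mul (c := 1) (by fun_prop) (Eventually.of_forall fun x => ?_)
  rw [Complex.norm_exp]
  simp

lemma fourier_sub' {δ : ℝ} (hδ : 0 < δ) {f g : E d → ℂ} (hf : Dec δ f) (hg : Dec δ g) (ξ : E d) :
    𝓕 (fun x => f x - g x) ξ = 𝓕 f ξ - 𝓕 g ξ := by
  rw [fourier_eq, fourier_eq, fourier_eq, ← integral_sub (ker_int hδ hf ξ) (ker_int hδ hg ξ)]
  apply integral_congr_ae
  filter_upwards with x
  ring

lemma fourier_add' {δ : ℝ} (hδ : 0 < δ) {f g : E d → ℂ} (hf : Dec δ f) (hg : Dec δ g) (ξ : E d) :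
    𝓕 (fun x => f x + g x) ξ = 𝓕 f ξ + 𝓕 g ξ := by
  rw [fourier_eq, fourier_eq, fourier_eq, ← integral_add (ker_int hδ hf ξ) (ker_int hδ hg ξ)]
  apply integral_congr_ae
  filter_upwards with x
  ring

lemma parseval {δ : ℝ} (hδ : 0 < δ) {f g : E d → ℂ} (hf : Dec δ f) (hg : Dec δ g) :
    ∫ ξ, conj (𝓕 f ξ) * 𝓕 g ξ = ∫ x, conj (f x) * g x := by
  have hf1 := hf.integrable hδ
  have hf2 := hf.memLp hδ
  have hg1 := hg.integrable hδ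
  have hg2 := hg.memLp hδ
  have h := Lp.inner_fourier_eq (hf2.toLp f) (hg2.toLp g)
  rw [L2.inner_def, L2.inner_def] at h
  have e1 : ∫ a, inner ℂ ((𝓕 (hf2.toLp f) : Lp ℂ 2 (volume : Measure (E d))) a)
      ((𝓕 (hg2.toLp g) : Lp ℂ 2 (volume : Measure (E d))) a) =
      ∫ ξ, conj (𝓕 f ξ) * 𝓕 g ξ := by
    apply integral_congr_ae
    filter_upwards [Pool.Agent.H153R4.fourier_ae_eq f hf1 hf2,
      Pool.Agent.H153R4.fourier_ae_eq g hg1 hg2] with ξ h1 h2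
    rw [h1, h2, RCLike.inner_apply]
    ring
  have e2 : ∫ a, inner ℂ ((hf2.toLp f : Lp ℂ 2 (volume : Measure (E d))) a)
      ((hg2.toLp g : Lp ℂ 2 (volume : Measure (E d))) a) =
      ∫ x, conj (f x) * g x := by
    apply integral_congr_ae
    filter_upwards [hf2.coeFn_toLp, hg2.coeFn_toLp] with x h1 h2
    rw [h1, h2, RCLike.inner_apply]
    ring
  rw [e1, e2] at h
  exact h

lemma Dec.mul_int {δ : ℝ} (hδ : 0 < δ) {f g : E d → ℂ} (hf : Dec δ f) (hg : Dec δ g) :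
    Integrable (fun x => conj (f x) * g x) := by
  obtain ⟨K, hK0, hK⟩ := hf.nonneg
  have h1 : Dec δ (fun x => conj (f x) * g x) := by
    refine hg.bdd_mul (M := K) (by have := hf.1; fun_prop) fun x => ?_
    rw [RCLike.norm_conj]
    refine (hK x).trans ?_
    have : Real.exp (-(δ * ‖x‖)) ≤ 1 := by
      rw [Real.exp_le_one_iff]
      have := norm_nonneg x
      nlinarith
    nlinarith
  exact h1.integrable hδ

/-- the part of the potential that does not depend on the direction `e` commutes with the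
derivative in that direction -/
lemma sin_zero {δ : ℝ} (hδ : 0 < δ) {w : E d → ℂ} (hw : Dec δ w) {V₀ : E d → ℝ}
    (hV₀ : Measurable V₀) {M₀ : ℝ} (hM₀ : ∀ x, |V₀ x| ≤ M₀) {e : E d}
    (hinv : ∀ (t : ℝ) (x : E d), V₀ (x + t • e) = V₀ x) (t : ℝ) :
    ∫ ξ, Real.sin (2 * π * (t * ⟪e, ξ⟫)) *
      (conj (𝓕 (fun x => (V₀ x : ℂ) * w x) ξ) * 𝓕 w ξ).im = 0 := by
  have hm : Measurable fun x => (V₀ x : ℂ) := Complex.measurable_ofReal.comp hV₀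
  have hVw : Dec δ (fun x => (V₀ x : ℂ) * w x) := hw.bdd_mul hm (M := M₀) (fun x => by
    rw [Complex.norm_real, Real.norm_eq_abs]
    exact hM₀ x)
  have hp := hw.shift hδ.le (t • e)
  have hn := hw.shift hδ.le (-(t • e))
  have hdec : Dec δ (fun x => w (x + t • e) - w (x + -(t • e))) := hp.sub hn
  -- Fourier side
  have hF : ∀ ξ, 𝓕 (fun x => w (x + t • e) - w (x + -(t • e))) ξ =
      2 * Complex.I * (Real.sin (2 * π * (t * ⟪e, ξ⟫)) : ℂ) * 𝓕 w ξ := by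
    intro ξ
    have e1 : (fun x => w (x + t • e) - w (x + -(t • e))) =
        fun x => (w (x + t • e) - w x) - (w (x + -(t • e)) - w x) := by
      funext x
      ring
    rw [e1, fourier_sub' hδ (hp.sub hw) (hn.sub hw), fourier_shift hw hδ, fourier_shift hw hδ]
    have e2 : sg (t • e) ξ - sg (-(t • e)) ξ =
        2 * Complex.I * (Real.sin (2 * π * (t * ⟪e, ξ⟫)) : ℂ) := by
      unfold sg
      rw [inner_neg_left, inner_smul_left]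
      have e3 : (2 * (π:ℂ) * (((conj t) * ⟪e, ξ⟫ : ℝ) : ℂ) * Complex.I) =
          ((2 * π * (t * ⟪e, ξ⟫) : ℝ) : ℂ) * Complex.I := by
        push_cast
        simp
      have e4 : (2 * (π:ℂ) * ((-((conj t) * ⟪e, ξ⟫) : ℝ) : ℂ) * Complex.I) =
          ((-(2 * π * (t * ⟪e, ξ⟫)) : ℝ) : ℂ) * Complex.I := by
        push_cast
        simp
      rw [e3, e4, Complex.exp_ofReal_mul_I, Complex.exp_ofReal_mul_I, Real.cos_neg, Real.sin_neg]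
      push_cast
      ring
    rw [← e2]
    ring
  have hpars := parseval hδ hVw hdec
  -- physical side
  have i1 := hVw.mul_int hδ hp
  have i2 := hVw.mul_int hδ hn
  set A : ℂ := ∫ x, conj ((V₀ x : ℂ) * w x) * w (x + t • e) with hA
  have hB : ∫ x, conj ((V₀ x : ℂ) * w x) * w (x + -(t • e)) = conj A := by
    rw [hA, ← integral_conj]
    rw [← integral_add_right_eq_self (fun x => conj ((V₀ x : ℂ) * w x) * w (x + -(t • e))) (t • e)]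
    apply integral_congr_ae
    filter_upwards with x
    rw [hinv t x, add_neg_cancel_right]
    simp only [map_mul, Complex.conj_ofReal, Complex.conj_conj]
    ring
  have hphys : ∫ x, conj ((V₀ x : ℂ) * w x) * (w (x + t • e) - w (x + -(t • e))) = A - conj A := by
    rw [← hB, hA, ← integral_sub i1 i2]
    apply integral_congr_ae
    filter_upwards with x
    ring
  rw [hphys] at hpars
  have hre : (∫ ξ, conj (𝓕 (fun x => (V₀ x : ℂ) * w x) ξ) *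
      𝓕 (fun x => w (x + t • e) - w (x + -(t • e))) ξ).re = 0 := by
    rw [hpars]
    simp
  have hFi : Integrable (fun ξ => conj (𝓕 (fun x => (V₀ x : ℂ) * w x) ξ) *
      𝓕 (fun x => w (x + t • e) - w (x + -(t • e))) ξ) := by
    obtain ⟨j1, -⟩ := hVw.planch hδ
    obtain ⟨j2, -⟩ := hdec.planch hδ
    have c1 := fourier_cont hVw hδ
    have c2 := fourier_cont hdec hδ
    refine (j1.add j2).mono' (by fun_prop) ?_
    filter_upwards with ξ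
    rw [norm_mul, RCLike.norm_conj]
    simp only [Pi.add_apply]
    nlinarith [sq_nonneg (‖𝓕 (fun x => (V₀ x : ℂ) * w x) ξ‖ -
      ‖𝓕 (fun x => w (x + t • e) - w (x + -(t • e))) ξ‖),
      sq_nonneg (‖𝓕 (fun x => (V₀ x : ℂ) * w x) ξ‖),
      sq_nonneg (‖𝓕 (fun x => w (x + t • e) - w (x + -(t • e))) ξ‖)]
  have h1 : ∫ ξ, (conj (𝓕 (fun x => (V₀ x : ℂ) * w x) ξ) *
      𝓕 (fun x => w (x + t • e) - w (x + -(t • e))) ξ).re = (∫ ξ, conj (𝓕 (fun x => (V₀ x : ℂ) * w x) ξ) *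
      𝓕 (fun x => w (x + t • e) - w (x + -(t • e))) ξ).re := integral_re hFi
  rw [hre] at h1
  have h2 : ∫ ξ, (-2) * (Real.sin (2 * π * (t * ⟪e, ξ⟫)) *
      (conj (𝓕 (fun x => (V₀ x : ℂ) * w x) ξ) * 𝓕 w ξ).im) = 0 := by
    rw [← h1]
    apply integral_congr_ae
    filter_upwards with ξ
    rw [hF ξ]
    have e5 : conj (𝓕 (fun x => (V₀ x : ℂ) * w x) ξ) *
        (2 * Complex.I * (Real.sin (2 * π * (t * ⟪e, ξ⟫)) : ℂ) * 𝓕 w ξ) =
        ((2 * Real.sin (2 * π * (t * ⟪e, ξ⟫)) : ℝ) : ℂ) * (Complex.I *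
        (conj (𝓕 (fun x => (V₀ x : ℂ) * w x) ξ) * 𝓕 w ξ)) := by
      push_cast
      ring
    rw [e5, Complex.re_ofReal_mul, Complex.I_mul_re]
    ring
  rw [integral_const_mul] at h2
  have h3 : ((-2 : ℝ)) ≠ 0 := by norm_num
  exact (mul_eq_zero.1 h2).resolve_left h3

/-- the derivative version -/
lemma deriv_zero {δ : ℝ} (hδ : 0 < δ) {w : E d → ℂ} (hw : Dec δ w) {V₀ : E d → ℝ}
    (hV₀ : Measurable V₀) {M₀ : ℝ} (hM₀ : ∀ x, |V₀ x| ≤ M₀) {e : E d}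
    (hinv : ∀ (t : ℝ) (x : E d), V₀ (x + t • e) = V₀ x)
    (hs : Integrable (fun ξ => ⟪e, ξ⟫ ^ 2 * ‖𝓕 w ξ‖ ^ 2)) :
    Integrable (fun ξ => ⟪e, ξ⟫ * (conj (𝓕 (fun x => (V₀ x : ℂ) * w x) ξ) * 𝓕 w ξ).im) ∧
    ∫ ξ, ⟪e, ξ⟫ * (conj (𝓕 (fun x => (V₀ x : ℂ) * w x) ξ) * 𝓕 w ξ).im = 0 := by
  have hπ := Real.pi_pos
  have hm : Measurable fun x => (V₀ x : ℂ) := Complex.measurable_ofReal.comp hV₀
  have hVw : Dec δ (fun x => (V₀ x : ℂ) * w x) := hw.bdd_mul hm (M := M₀) (fun x => by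
    rw [Complex.norm_real, Real.norm_eq_abs]
    exact hM₀ x)
  obtain ⟨j1, -⟩ := hVw.planch hδ
  have c1 := fourier_cont hVw hδ
  have c2 := fourier_cont hw hδ
  set P : E d → ℝ := fun ξ => (conj (𝓕 (fun x => (V₀ x : ℂ) * w x) ξ) * 𝓕 w ξ).im with hP
  have hPc : Continuous P := by fun_prop
  have hPb : ∀ ξ, |⟪e, ξ⟫| * |P ξ| ≤ ⟪e, ξ⟫ ^ 2 * ‖𝓕 w ξ‖ ^ 2 +
      ‖𝓕 (fun x => (V₀ x : ℂ) * w x) ξ‖ ^ 2 := by
    intro ξ
    have h1 : |P ξ| ≤ ‖𝓕 (fun x => (V₀ x : ℂ) * w x) ξ‖ * ‖𝓕 w ξ‖ := by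
      refine (Complex.abs_im_le_norm _).trans ?_
      rw [norm_mul, RCLike.norm_conj]
    have h2 : |⟪e, ξ⟫| * |P ξ| ≤
        (|⟪e, ξ⟫| * ‖𝓕 w ξ‖) * ‖𝓕 (fun x => (V₀ x : ℂ) * w x) ξ‖ := by
      calc |⟪e, ξ⟫| * |P ξ|
          ≤ |⟪e, ξ⟫| * (‖𝓕 (fun x => (V₀ x : ℂ) * w x) ξ‖ * ‖𝓕 w ξ‖) :=
            mul_le_mul_of_nonneg_left h1 (abs_nonneg _)
        _ = _ := by ring
    have h3 : (|⟪e, ξ⟫| * ‖𝓕 w ξ‖) ^ 2 = ⟪e, ξ⟫ ^ 2 * ‖𝓕 w ξ‖ ^ 2 := by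
      rw [mul_pow, sq_abs]
    rw [← h3]
    nlinarith [sq_nonneg (|⟪e, ξ⟫| * ‖𝓕 w ξ‖ - ‖𝓕 (fun x => (V₀ x : ℂ) * w x) ξ‖),
      sq_nonneg (|⟪e, ξ⟫| * ‖𝓕 w ξ‖), sq_nonneg ‖𝓕 (fun x => (V₀ x : ℂ) * w x) ξ‖]
  have hbi := hs.add j1
  constructor
  · refine hbi.mono' (by fun_prop) ?_
    filter_upwards with ξ
    rw [Real.norm_eq_abs, abs_mul]
    exact hPb ξ
  · have hlim : Tendsto (fun n : ℕ => ∫ ξ, (1 / (2 * π * (1 / ((n : ℝ) + 1)))) *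
        (Real.sin (2 * π * ((1 / ((n : ℝ) + 1)) * ⟪e, ξ⟫)) * P ξ)) atTop
        (𝓝 (∫ ξ, ⟪e, ξ⟫ * P ξ)) := by
      apply tendsto_integral_of_dominated_convergence
        (fun ξ => ⟪e, ξ⟫ ^ 2 * ‖𝓕 w ξ‖ ^ 2 + ‖𝓕 (fun x => (V₀ x : ℂ) * w x) ξ‖ ^ 2)
      · intro n
        exact Continuous.aestronglyMeasurable (by fun_prop)
      · exact hbi
      · intro n
        filter_upwards with ξ
        have ht : (0:ℝ) < 1 / ((n : ℝ) + 1) := by positivity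
        rw [Real.norm_eq_abs, abs_mul, abs_mul, abs_of_pos (by positivity)]
        have h1 : |Real.sin (2 * π * ((1 / ((n : ℝ) + 1)) * ⟪e, ξ⟫))| ≤
            2 * π * (1 / ((n : ℝ) + 1)) * |⟪e, ξ⟫| := by
          refine Real.abs_sin_le_abs.trans (le_of_eq ?_)
          rw [abs_mul, abs_mul, abs_mul, abs_of_pos ht, abs_of_pos hπ, abs_of_pos two_pos]
          ring
        refine le_trans ?_ (hPb ξ)
        calc 1 / (2 * π * (1 / ((n : ℝ) + 1))) *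
            (|Real.sin (2 * π * ((1 / ((n : ℝ) + 1)) * ⟪e, ξ⟫))| * |P ξ|)
            ≤ 1 / (2 * π * (1 / ((n : ℝ) + 1))) *
              (2 * π * (1 / ((n : ℝ) + 1)) * |⟪e, ξ⟫| * |P ξ|) := by
              apply mul_le_mul_of_nonneg_left _ (by positivity)
              exact mul_le_mul_of_nonneg_right h1 (abs_nonneg _)
          _ = |⟪e, ξ⟫| * |P ξ| := by
              field_simp
      · filter_upwards with ξ
        have h1 : HasDerivAt (fun t : ℝ => Real.sin (2 * π * (t * ⟪e, ξ⟫)))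
            (2 * π * ⟪e, ξ⟫) 0 := by
          have h2 := (((hasDerivAt_id (0:ℝ)).mul_const ⟪e, ξ⟫).const_mul (2 * π)).sin
          convert! h2 using 1
          simp
        have h2 := hasDerivAt_iff_tendsto_slope_zero.1 h1
        have h3 : Tendsto (fun n : ℕ => 1 / ((n : ℝ) + 1)) atTop (𝓝[≠] 0) := by
          apply tendsto_nhdsWithin_of_tendsto_nhds_of_eventually_within
          · exact tendsto_one_div_add_atTop_nhds_zero_nat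
          · filter_upwards with n
            have : (0:ℝ) < 1 / ((n : ℝ) + 1) := by positivity
            exact this.ne'
        have h4 := ((h2.comp h3).const_mul (1 / (2 * π))).mul_const (P ξ)
        have e1 : 1 / (2 * π) * (2 * π * ⟪e, ξ⟫) * P ξ = ⟪e, ξ⟫ * P ξ := by
          field_simp
        rw [e1] at h4
        refine h4.congr fun n => ?_
        simp only [Function.comp, zero_add, zero_mul, mul_zero, Real.sin_zero, sub_zero,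
          smul_eq_mul]
        have : (0:ℝ) < (n : ℝ) + 1 := by positivity
        field_simp
    have hz : ∀ n : ℕ, ∫ ξ, (1 / (2 * π * (1 / ((n : ℝ) + 1)))) *
        (Real.sin (2 * π * ((1 / ((n : ℝ) + 1)) * ⟪e, ξ⟫)) * P ξ) = 0 := by
      intro n
      rw [integral_const_mul, hP, sin_zero hδ hw hV₀ hM₀ hinv, mul_zero]
    simp only [hz] at hlim
    exact (tendsto_nhds_unique hlim tendsto_const_nhds)

/-- the energy estimate -/
theorem est {δ τ M : ℝ} (hδ : 0 < δ) (hτ : 0 < τ) {w : E d → ℂ} (hw : Dec δ w) {V₀ : E d → ℝ}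
    (hV₀ : Measurable V₀) {M₀ : ℝ} (hM₀ : ∀ x, |V₀ x| ≤ M₀) {e : E d}
    (hinv : ∀ (t : ℝ) (x : E d), V₀ (x + t • e) = V₀ x) {V₁ : E d → ℂ} (hV₁ : Measurable V₁)
    (hM : ∀ x, ‖V₁ x‖ ≤ M) {Λ : E d → ℂ} (hΛ : ∀ ξ, (Λ ξ).im = -(4 * π * τ * ⟪e, ξ⟫))
    (hid : ∀ ξ, Λ ξ * 𝓕 w ξ = 𝓕 (fun x => (V₀ x : ℂ) * w x) ξ + 𝓕 (fun x => V₁ x * w x) ξ) :
    Integrable (fun ξ => ⟪e, ξ⟫ ^ 2 * ‖𝓕 w ξ‖ ^ 2) ∧
    (4 * π * τ) ^ 2 * ∫ ξ, ⟪e, ξ⟫ ^ 2 * ‖𝓕 w ξ‖ ^ 2 ≤ ∫ x, ‖V₁ x * w x‖ ^ 2 := by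
  have hπ := Real.pi_pos
  have hm : Measurable fun x => (V₀ x : ℂ) := Complex.measurable_ofReal.comp hV₀
  have hV₀w : Dec δ (fun x => (V₀ x : ℂ) * w x) := hw.bdd_mul hm (M := M₀) (fun x => by
    rw [Complex.norm_real, Real.norm_eq_abs]
    exact hM₀ x)
  have hV₁w : Dec δ (fun x => V₁ x * w x) := hw.bdd_mul hV₁ hM
  obtain ⟨j0, -⟩ := hV₀w.planch hδ
  obtain ⟨j1, j1'⟩ := hV₁w.planch hδ
  have c0 := fourier_cont hV₀w hδ
  have c1 := fourier_cont hV₁w hδ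
  have c2 := fourier_cont hw hδ
  set F := 𝓕 w with hF
  set F₀ := 𝓕 (fun x => (V₀ x : ℂ) * w x) with hF₀
  set F₁ := 𝓕 (fun x => V₁ x * w x) with hF₁
  set b : ℝ := 4 * π * τ with hb
  have hb0 : 0 < b := by positivity
  have hI : Integrable (fun ξ => ⟪e, ξ⟫ ^ 2 * ‖F ξ‖ ^ 2) := by
    refine ((j0.add j1).const_mul (2 / b ^ 2)).mono' (Continuous.aestronglyMeasurable
      (by fun_prop)) ?_
    filter_upwards with ξ
    rw [Real.norm_eq_abs, abs_of_nonneg (by positivity)]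
    have h1 : b * |⟪e, ξ⟫| * ‖F ξ‖ ≤ ‖F₀ ξ‖ + ‖F₁ ξ‖ := by
      refine le_trans ?_ (norm_add_le _ _)
      rw [← hid ξ, norm_mul]
      apply mul_le_mul_of_nonneg_right _ (norm_nonneg _)
      have h2 := Complex.abs_im_le_norm (Λ ξ)
      rw [hΛ, abs_neg, abs_mul, abs_of_pos hb0] at h2
      exact h2
    have h2 : (b * |⟪e, ξ⟫| * ‖F ξ‖) ^ 2 ≤ (‖F₀ ξ‖ + ‖F₁ ξ‖) ^ 2 :=
      pow_le_pow_left₀ (by positivity) h1 2
    have h3 : (b * |⟪e, ξ⟫| * ‖F ξ‖) ^ 2 = b ^ 2 * (⟪e, ξ⟫ ^ 2 * ‖F ξ‖ ^ 2) := by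
      rw [mul_pow, mul_pow, sq_abs]
      ring
    rw [h3] at h2
    simp only [Pi.add_apply]
    rw [div_mul_eq_mul_div, le_div_iff₀ (by positivity)]
    nlinarith [sq_nonneg (‖F₀ ξ‖ - ‖F₁ ξ‖)]
  refine ⟨hI, ?_⟩
  obtain ⟨k1, k2⟩ := deriv_zero hδ hw hV₀ hM₀ hinv hI
  have hpt : ∀ ξ, b ^ 2 * (⟪e, ξ⟫ ^ 2 * ‖F ξ‖ ^ 2) -
      2 * b * (⟪e, ξ⟫ * (conj (F₀ ξ) * F ξ).im) ≤ ‖F₁ ξ‖ ^ 2 := by
    intro ξ
    -- conj(ΛF) F = conj(F₀) F + conj(F₁) F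
    have h1 : conj (Λ ξ * F ξ) * F ξ = conj (F₀ ξ) * F ξ + conj (F₁ ξ) * F ξ := by
      rw [hid ξ, map_add, add_mul]
    have h2 : (conj (Λ ξ * F ξ) * F ξ).im = b * ⟪e, ξ⟫ * ‖F ξ‖ ^ 2 := by
      have h3 : conj (Λ ξ * F ξ) * F ξ = conj (Λ ξ) * ((‖F ξ‖ ^ 2 : ℝ) : ℂ) := by
        rw [map_mul, mul_assoc, Complex.conj_mul']
        push_cast
        ring
      rw [h3, Complex.im_mul_ofReal, Complex.conj_im, hΛ]
      ring
    have h4 : b * ⟪e, ξ⟫ * ‖F ξ‖ ^ 2 = (conj (F₀ ξ) * F ξ).im + (conj (F₁ ξ) * F ξ).im := by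
      rw [← h2, h1, Complex.add_im]
    have h5 : |(conj (F₁ ξ) * F ξ).im| ≤ ‖F₁ ξ‖ * ‖F ξ‖ := by
      refine (Complex.abs_im_le_norm _).trans ?_
      rw [norm_mul, RCLike.norm_conj]
    have h6 : ⟪e, ξ⟫ * (conj (F₁ ξ) * F ξ).im ≤ |⟪e, ξ⟫| * (‖F₁ ξ‖ * ‖F ξ‖) := by
      refine (le_abs_self _).trans ?_
      rw [abs_mul]
      exact mul_le_mul_of_nonneg_left h5 (abs_nonneg _)
    have h7 : b ^ 2 * (⟪e, ξ⟫ ^ 2 * ‖F ξ‖ ^ 2) =
        b * ⟪e, ξ⟫ * (conj (F₀ ξ) * F ξ).im + b * ⟪e, ξ⟫ * (conj (F₁ ξ) * F ξ).im := by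
      rw [← mul_add, ← h4]
      ring
    have h8 : (b * |⟪e, ξ⟫| * ‖F ξ‖) ^ 2 = b ^ 2 * (⟪e, ξ⟫ ^ 2 * ‖F ξ‖ ^ 2) := by
      rw [mul_pow, mul_pow, sq_abs]
      ring
    have h9 := sq_nonneg (b * |⟪e, ξ⟫| * ‖F ξ‖ - ‖F₁ ξ‖)
    have h10 : b * (⟪e, ξ⟫ * (conj (F₁ ξ) * F ξ).im) ≤
        b * (|⟪e, ξ⟫| * (‖F₁ ξ‖ * ‖F ξ‖)) := mul_le_mul_of_nonneg_left h6 hb0.le
    nlinarith
  have h1 := integral_mono ((hI.const_mul (b ^ 2)).sub (k1.const_mul (2 * b))) j1 hpt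
  have e1 : ∫ ξ, (b ^ 2 * (⟪e, ξ⟫ ^ 2 * ‖F ξ‖ ^ 2) -
      2 * b * (⟪e, ξ⟫ * (conj (F₀ ξ) * F ξ).im)) =
      b ^ 2 * ∫ ξ, ⟪e, ξ⟫ ^ 2 * ‖F ξ‖ ^ 2 := by
    rw [integral_sub (hI.const_mul _) (k1.const_mul _), integral_const_mul, integral_const_mul,
      k2, mul_zero, sub_zero]
  rw [j1'] at h1
  rw [← e1]
  exact h1

end Pool.Agent.TH337.LD
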