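import Pool.Agent.TH337.LD.Basic

/-!
Weak solutions tested with exponentials.
-/

namespace Pool.Agent.TH337.LD

open MeasureTheory Filter Topology Set Metric FourierTransform
open scoped ENNReal Real RealInnerProductSpace

variable {d : ℕ}

/-- the second derivative of a product in one direction -/
lemma sd_mul {f g : E d → ℂ} (hf : ContDiff ℝ 2 f) (hg : ContDiff ℝ 2 g) (x w : E d) :
    iteratedFDeriv ℝ 2 (fun y => f y * g y) x (fun _ => w) =
      iteratedFDeriv ℝ 2 f x (fun _ => w) * g x + 2 * (fderiv ℝ f x w * fderiv ℝ g x w) +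
      f x * iteratedFDeriv ℝ 2 g x (fun _ => w) := by
  have hf1 : ContDiff ℝ 1 (fderiv ℝ f) := hf.fderiv_right (by norm_num)
  have hg1 : ContDiff ℝ 1 (fderiv ℝ g) := hg.fderiv_right (by norm_num)
  have e1 : fderiv ℝ (fun y => f y * g y) = fun y => f y • fderiv ℝ g y + g y • fderiv ℝ f y := by
    funext y
    exact fderiv_mul (hf.differentiable (by norm_num) y) (hg.differentiable (by norm_num) y)
  rw [iteratedFDeriv_two_apply, iteratedFDeriv_two_apply, iteratedFDeriv_two_apply, e1]
  have h1 := ((hf.differentiable (by norm_num) x).hasFDerivAt.smul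
    (hg1.differentiable (by norm_num) x).hasFDerivAt).add
    ((hg.differentiable (by norm_num) x).hasFDerivAt.smul
    (hf1.differentiable (by norm_num) x).hasFDerivAt)
  have h2 : fderiv ℝ (fun y => f y • fderiv ℝ g y + g y • fderiv ℝ f y) x =
      (f x • fderiv ℝ (fderiv ℝ g) x + (fderiv ℝ f x).smulRight (fderiv ℝ g x)) +
      (g x • fderiv ℝ (fderiv ℝ f) x + (fderiv ℝ g x).smulRight (fderiv ℝ f x)) := h1.fderiv
  rw [h2]
  simp only [ContinuousLinearMap.add_apply, ContinuousLinearMap.smul_apply,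
    ContinuousLinearMap.smulRight_apply, smul_eq_mul]
  ring

lemma fderiv_exp (l : E d →L[ℝ] ℂ) (x w : E d) :
    fderiv ℝ (fun y => Complex.exp (l y)) x w = Complex.exp (l x) * l w := by
  have h := (l.hasFDerivAt (x := x)).cexp
  rw [h.fderiv]
  simp

lemma contDiff_exp (l : E d →L[ℝ] ℂ) : ContDiff ℝ 2 (fun y => Complex.exp (l y)) :=
  l.contDiff.cexp

lemma sd_exp (l : E d →L[ℝ] ℂ) (x w : E d) :
    iteratedFDeriv ℝ 2 (fun y => Complex.exp (l y)) x (fun _ => w) =
      Complex.exp (l x) * (l w) ^ 2 := by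
  rw [iteratedFDeriv_two_apply]
  have e1 : fderiv ℝ (fun y => Complex.exp (l y)) = fun y => Complex.exp (l y) • l := by
    funext y
    exact (l.hasFDerivAt (x := y)).cexp.fderiv
  rw [e1]
  have h2 := ((l.hasFDerivAt (x := x)).cexp).smul_const l
  rw [h2.fderiv]
  simp only [ContinuousLinearMap.smulRight_apply, ContinuousLinearMap.smul_apply, smul_eq_mul]
  ring

/-- cut-off functions -/
lemma exists_cut : ∃ (g : ℕ → E d → ℂ) (B : ℝ), 0 ≤ B ∧
    (∀ n, ContDiff ℝ 2 (g n)) ∧ (∀ n, HasCompactSupport (g n)) ∧ (∀ n x, ‖g n x‖ ≤ 1) ∧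
    (∀ x, Tendsto (fun n => g n x) atTop (𝓝 1)) ∧
    (∀ n x w, ‖w‖ ≤ 1 → ‖fderiv ℝ (g n) x w‖ ≤ B * (1 / ((n : ℝ) + 1))) ∧
    (∀ n x w, ‖w‖ ≤ 1 →
      ‖iteratedFDeriv ℝ 2 (g n) x (fun _ => w)‖ ≤ B * (1 / ((n : ℝ) + 1))) := by
  let χ : ContDiffBump (0 : E d) := ⟨1, 2, one_pos, one_lt_two⟩
  have hχ : ContDiff ℝ 2 (χ : E d → ℝ) := χ.contDiff
  set G : E d → ℂ := fun x => ((χ x : ℝ) : ℂ) with hG
  have hGc : ContDiff ℝ 2 G := Complex.ofRealCLM.contDiff.comp hχ
  have hGs : HasCompactSupport G := χ.hasCompactSupport.comp_left (g := fun t : ℝ => (t : ℂ)) (by simp)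
  have hG1 : ContDiff ℝ 1 (fderiv ℝ G) := hGc.fderiv_right (by norm_num)
  obtain ⟨B₁, hB₁⟩ := (hGc.continuous_fderiv (by norm_num)).bounded_above_of_compact_support
    (hGs.fderiv ℝ)
  obtain ⟨B₂, hB₂⟩ := (hG1.continuous_fderiv (by norm_num)).bounded_above_of_compact_support
    ((hGs.fderiv ℝ).fderiv ℝ)
  have hB₁0 : 0 ≤ B₁ := (norm_nonneg _).trans (hB₁ 0)
  have hB₂0 : 0 ≤ B₂ := (norm_nonneg _).trans (hB₂ 0)
  set c : ℕ → ℝ := fun n => 1 / ((n : ℝ) + 1) with hc
  have hc0 : ∀ n, 0 < c n := fun n => by rw [hc]; positivity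
  have hc1 : ∀ n, c n ≤ 1 := by
    intro n
    rw [hc]
    simp only
    rw [div_le_one (by positivity)]
    have : (0:ℝ) ≤ n := Nat.cast_nonneg n
    linarith
  have hfd : ∀ n, fderiv ℝ (fun x => G (c n • x)) = fun x => c n • fderiv ℝ G (c n • x) := by
    intro n
    funext x
    exact fderiv_comp_smul _
  refine ⟨fun n x => G (c n • x), B₁ + B₂, by positivity, ?_, ?_, ?_, ?_, ?_, ?_⟩
  · intro n
    exact hGc.comp (contDiff_const_smul _)
  · intro n
    exact hGs.comp_smul (hc0 n).ne'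
  · intro n x
    show ‖((χ (c n • x) : ℝ) : ℂ)‖ ≤ 1
    rw [Complex.norm_real, Real.norm_eq_abs, abs_of_nonneg χ.nonneg]
    exact χ.le_one
  · intro x
    have h1 : Tendsto (fun n : ℕ => c n • x) atTop (𝓝 ((0:ℝ) • x)) :=
      tendsto_one_div_add_atTop_nhds_zero_nat.smul_const x
    rw [zero_smul] at h1
    have h2 := (hGc.continuous.tendsto 0).comp h1
    have h3 : G 0 = 1 := by
      have : χ (0 : E d) = 1 := χ.one_of_mem_closedBall (by simp [χ])
      simp [hG, this]
    rw [h3] at h2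
    exact h2
  · intro n x w hw
    rw [hfd n]
    simp only [ContinuousLinearMap.smul_apply]
    rw [norm_smul, Real.norm_eq_abs, abs_of_pos (hc0 n)]
    have h1 : ‖fderiv ℝ G (c n • x) w‖ ≤ B₁ := by
      refine ((fderiv ℝ G (c n • x)).le_opNorm w).trans ?_
      have := hB₁ (c n • x)
      have h2 := norm_nonneg w
      have h3 := norm_nonneg (fderiv ℝ G (c n • x))
      nlinarith
    have h2 := hc0 n
    show c n * _ ≤ (B₁ + B₂) * c n
    nlinarith
  · intro n x w hw
    rw [iteratedFDeriv_two_apply, hfd n]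
    have h1 : HasFDerivAt (fun x => c n • fderiv ℝ G (c n • x))
        (c n • (c n • fderiv ℝ (fderiv ℝ G) (c n • x))) x := by
      have h2 : fderiv ℝ (fun x => fderiv ℝ G (c n • x)) x =
          c n • fderiv ℝ (fderiv ℝ G) (c n • x) := fderiv_comp_smul _
      have h3 : DifferentiableAt ℝ (fun x => fderiv ℝ G (c n • x)) x :=
        (hG1.comp (contDiff_const_smul (c n))).differentiable (by norm_num) x
      rw [← h2]
      have h4 := h3.hasFDerivAt.const_smul (c n)
      exact h4
    rw [h1.fderiv]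
    simp only [ContinuousLinearMap.smul_apply]
    rw [norm_smul, norm_smul, Real.norm_eq_abs, abs_of_pos (hc0 n)]
    have h4 : ‖fderiv ℝ (fderiv ℝ G) (c n • x) w w‖ ≤ B₂ := by
      refine ((fderiv ℝ (fderiv ℝ G) (c n • x) w).le_opNorm w).trans ?_
      have h5 := (fderiv ℝ (fderiv ℝ G) (c n • x)).le_opNorm w
      have h6 := hB₂ (c n • x)
      have h7 := norm_nonneg w
      have h8 := norm_nonneg (fderiv ℝ (fderiv ℝ G) (c n • x))
      have h9 := norm_nonneg (fderiv ℝ (fderiv ℝ G) (c n • x) w)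
      nlinarith
    have h2 := hc0 n
    have h3 := hc1 n
    show c n * (c n * _) ≤ (B₁ + B₂) * c n
    have h10 : c n * ‖fderiv ℝ (fderiv ℝ G) (c n • x) w w‖ ≤ B₂ := by
      have := norm_nonneg (fderiv ℝ (fderiv ℝ G) (c n • x) w w)
      nlinarith
    nlinarith

/-- weak solutions of `-Δu + Vu = 0` -/
def IsWeakSolution (V u : E d → ℂ) : Prop :=
  ∀ φ : E d → ℂ, ContDiff ℝ 2 φ → HasCompactSupport φ →
    ∫ x, (-(u x * ∑ i : Fin d, iteratedFDeriv ℝ 2 φ x (fun _ => EuclideanSpace.single i (1 : ℝ)))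
      + V x * u x * φ x) = 0

theorem weak_exp {M : ℝ} {V u : E d → ℂ} (hVm : Measurable V) (hum : Measurable u)
    (hVM : ∀ x, ‖V x‖ ≤ M) (hw : IsWeakSolution V u) (l : E d →L[ℝ] ℂ)
    (hint : Integrable (fun x => u x * Complex.exp (l x))) :
    (∑ i : Fin d, (l (EuclideanSpace.single i (1 : ℝ))) ^ 2) * ∫ x, u x * Complex.exp (l x) =
      ∫ x, V x * (u x * Complex.exp (l x)) := by
  obtain ⟨g, B, hB, hg2, hgs, hg1, hgl, hgd, hgdd⟩ := exists_cut (d := d)
  set Λ : ℂ := ∑ i : Fin d, (l (EuclideanSpace.single i (1 : ℝ))) ^ 2 with hΛ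
  set U : E d → ℂ := fun x => u x * Complex.exp (l x) with hU
  have hUm : Measurable U := hum.mul (by fun_prop)
  -- the error term
  set R : ℕ → E d → ℂ := fun n x => ∑ i : Fin d,
    (2 * (l (EuclideanSpace.single i (1 : ℝ)) *
      fderiv ℝ (g n) x (EuclideanSpace.single i (1 : ℝ))) +
      iteratedFDeriv ℝ 2 (g n) x (fun _ => EuclideanSpace.single i (1 : ℝ))) with hR
  set L : ℝ := ∑ i : Fin d, (2 * ‖l (EuclideanSpace.single i (1 : ℝ))‖ * B + B) with hL
  have hL0 : 0 ≤ L := Finset.sum_nonneg fun i _ => by positivity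
  have hsingle : ∀ i : Fin d, ‖EuclideanSpace.single i (1 : ℝ)‖ ≤ 1 := by
    intro i
    simp
  have hRb : ∀ n x, ‖R n x‖ ≤ L * (1 / ((n : ℝ) + 1)) := by
    intro n x
    refine (norm_sum_le _ _).trans ?_
    rw [hL, Finset.sum_mul]
    apply Finset.sum_le_sum
    intro i _
    refine (norm_add_le _ _).trans ?_
    have h1 := hgd n x _ (hsingle i)
    have h2 := hgdd n x _ (hsingle i)
    have h3 : ‖2 * (l (EuclideanSpace.single i (1 : ℝ)) *
        fderiv ℝ (g n) x (EuclideanSpace.single i (1 : ℝ)))‖ ≤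
        2 * ‖l (EuclideanSpace.single i (1 : ℝ))‖ * (B * (1 / ((n : ℝ) + 1))) := by
      rw [norm_mul, norm_mul, Complex.norm_ofNat, ← mul_assoc]
      exact mul_le_mul_of_nonneg_left h1 (by positivity)
    calc _ ≤ 2 * ‖l (EuclideanSpace.single i (1 : ℝ))‖ * (B * (1 / ((n : ℝ) + 1))) +
        B * (1 / ((n : ℝ) + 1)) := add_le_add h3 h2
      _ = _ := by ring
  have hRc : ∀ n, Continuous (R n) := by
    intro n
    apply continuous_finsetSum
    intro i _
    have h1 : Continuous fun x => fderiv ℝ (g n) x (EuclideanSpace.single i (1 : ℝ)) :=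
      ((hg2 n).continuous_fderiv (by norm_num)).clm_apply continuous_const
    have h2 : Continuous fun x => iteratedFDeriv ℝ 2 (g n) x
        (fun _ => EuclideanSpace.single i (1 : ℝ)) := by
      have h3 : Continuous (iteratedFDeriv ℝ 2 (g n)) :=
        (hg2 n).continuous_iteratedFDeriv (by norm_num)
      fun_prop
    fun_prop
  -- the weak formulation for the truncated exponential
  have hn : ∀ n, ∫ x, (V x - Λ) * (U x * g n x) = ∫ x, U x * R n x := by
    intro n
    have h1 := hw (fun x => Complex.exp (l x) * g n x) ((contDiff_exp l).mul (hg2 n))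
      ((hgs n).mul_left)
    have e1 : (fun x => -(u x * ∑ i : Fin d, iteratedFDeriv ℝ 2
        (fun x => Complex.exp (l x) * g n x) x (fun _ => EuclideanSpace.single i (1 : ℝ)))
        + V x * u x * (Complex.exp (l x) * g n x)) =
        fun x => (V x - Λ) * (U x * g n x) - U x * R n x := by
      funext x
      have e2 : ∑ i : Fin d, iteratedFDeriv ℝ 2
          (fun x => Complex.exp (l x) * g n x) x (fun _ => EuclideanSpace.single i (1 : ℝ)) =
          Complex.exp (l x) * (Λ * g n x + R n x) := by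
        rw [hΛ, hR]
        simp only
        rw [Finset.sum_mul, ← Finset.sum_add_distrib, Finset.mul_sum]
        apply Finset.sum_congr rfl
        intro i _
        rw [sd_mul (contDiff_exp l) (hg2 n), sd_exp, fderiv_exp]
        ring
      rw [e2, hU]
      ring
    rw [e1] at h1
    have i1 : Integrable (fun x => (V x - Λ) * (U x * g n x)) := by
      have h2 : Integrable (fun x => U x * g n x) := by
        refine hint.mul_bdd (c := 1) ((hg2 n).continuous.aestronglyMeasurable)
          (Eventually.of_forall fun x => hg1 n x)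
      refine h2.bdd_mul (c := M + ‖Λ‖) (hVm.sub_const Λ).aestronglyMeasurable
        (Eventually.of_forall fun x => ?_)
      exact (norm_sub_le _ _).trans (add_le_add (hVM x) le_rfl)
    have i2 : Integrable (fun x => U x * R n x) :=
      hint.mul_bdd (c := L * (1 / ((n : ℝ) + 1))) (hRc n).aestronglyMeasurable
        (Eventually.of_forall fun x => hRb n x)
    rw [integral_sub i1 i2] at h1
    exact sub_eq_zero.1 h1
  -- limits
  have lim1 : Tendsto (fun n => ∫ x, (V x - Λ) * (U x * g n x)) atTop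
      (𝓝 (∫ x, (V x - Λ) * (U x * 1))) := by
    apply tendsto_integral_of_dominated_convergence (fun x => (M + ‖Λ‖) * ‖U x‖)
    · intro n
      exact ((hVm.sub_const Λ).mul (hUm.mul (hg2 n).continuous.measurable)).aestronglyMeasurable
    · exact hint.norm.const_mul _
    · intro n
      filter_upwards with x
      rw [norm_mul, norm_mul]
      have h1 : ‖V x - Λ‖ ≤ M + ‖Λ‖ := (norm_sub_le _ _).trans (add_le_add (hVM x) le_rfl)
      have h2 : ‖U x‖ * ‖g n x‖ ≤ ‖U x‖ := by
        have := hg1 n x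
        have h3 := norm_nonneg (U x)
        nlinarith
      exact mul_le_mul h1 h2 (by positivity) ((norm_nonneg _).trans h1)
    · filter_upwards with x
      exact ((hgl x).const_mul (U x)).const_mul (V x - Λ)
  have lim2 : Tendsto (fun n => ∫ x, U x * R n x) atTop (𝓝 0) := by
    rw [tendsto_zero_iff_norm_tendsto_zero]
    have hb : ∀ n : ℕ, ‖∫ x, U x * R n x‖ ≤ (∫ x, ‖U x‖) * (L * (1 / ((n : ℝ) + 1))) := by
      intro n
      rw [← integral_mul_const]
      apply norm_integral_le_of_norm_le (hint.norm.mul_const _)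
      filter_upwards with x
      rw [norm_mul]
      exact mul_le_mul_of_nonneg_left (hRb n x) (norm_nonneg _)
    have h0 : Tendsto (fun n : ℕ => (∫ x, ‖U x‖) * (L * (1 / ((n : ℝ) + 1)))) atTop
        (𝓝 ((∫ x, ‖U x‖) * (L * 0))) :=
      (tendsto_one_div_add_atTop_nhds_zero_nat.const_mul L).const_mul _
    rw [mul_zero, mul_zero] at h0
    exact squeeze_zero (fun n => norm_nonneg _) hb h0
  have hfin : ∫ x, (V x - Λ) * (U x * 1) = 0 := by
    apply tendsto_nhds_unique lim1
    simp only [hn]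
    exact lim2
  have i3 : Integrable (fun x => V x * U x) :=
    hint.bdd_mul (c := M) hVm.aestronglyMeasurable (Eventually.of_forall hVM)
  have e3 : (fun x => (V x - Λ) * (U x * 1)) = fun x => V x * U x - Λ * U x := by
    funext x
    ring
  rw [e3, integral_sub i3 (hint.const_mul Λ), integral_const_mul] at hfin
  exact (sub_eq_zero.1 hfin).symm

end Pool.Agent.TH337.LD
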