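import Pool.Agent.TH337.LD.Spec2
import Pool.Agent.TH337.LD.Main

/-!
Landis' conjecture for potentials with a part independent of one direction and a part periodic in it.
-/

namespace Pool.Agent.TH337.LD

open MeasureTheory Filter Topology Set Metric FourierTransform
open scoped ENNReal Real RealInnerProductSpace

variable {d : ℕ}

theorem landis_osc {M M₀ C ε K a : ℝ} (ha : 0 < a) (hε : 0 < ε) (hC : a * M / (2 * π) < C)
    {V₀ : E d → ℝ} {V u : E d → ℂ} (hV₀ : Measurable V₀) (hVm : Measurable V)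
    (hum : Measurable u) (hM₀ : ∀ x, |V₀ x| ≤ M₀) (hVM : ∀ x, ‖V x‖ ≤ M)
    {e : E d} (he : ‖e‖ = 1) (hinv : ∀ (t : ℝ) (x : E d), V₀ (x + t • e) = V₀ x)
    (hper : ∀ x, V (x + a • e) = V x)
    (hu : ∀ x, ‖u x‖ ≤ K * Real.exp (-(ε * ‖x‖)))
    (hu' : ∀ x, ‖u x‖ ≤ K * Real.exp (-(C * ⟪e, x⟫))) 
    (hw : IsWeakSolution (fun x => (V₀ x : ℂ) + V x) u) :
    ∀ᵐ x, u x = 0 := by
  have hπ := Real.pi_pos
  have hM : 0 ≤ M := (norm_nonneg _).trans (hVM 0)
  have hC0 : 0 < C := lt_of_le_of_lt (by positivity) hC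
  -- the weight
  set τ : ℝ := (a * M / (2 * π) + C) / 2 with hτ
  have hτ1 : a * M / (2 * π) < τ := by rw [hτ]; linarith
  have hτ2 : τ < C := by rw [hτ]; linarith
  have hτ0 : 0 < τ := lt_of_le_of_lt (by positivity) hτ1
  set θ : ℝ := τ / C with hθ
  have hθ0 : 0 < θ := by positivity
  have hθ1 : θ < 1 := by rw [hθ, div_lt_one hC0]; exact hτ2
  have hθC : θ * C = τ := by rw [hθ]; field_simp
  set δ : ℝ := (1 - θ) * ε with hδ
  have hδ0 : 0 < δ := by
    rw [hδ]
    exact mul_pos (by linarith) hε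
  set v : E d → ℂ := fun x => Complex.exp (τ * ⟪e, x⟫) * u x with hv
  have hK0 : 0 ≤ K := by
    have := hu 0
    have h1 := norm_nonneg (u 0)
    have h2 := Real.exp_pos (-(ε * ‖(0 : E d)‖))
    by_contra hc
    push Not at hc
    nlinarith
  have hdec : Dec δ v := by
    refine ⟨Measurable.mul (by fun_prop) hum, K, fun x => ?_⟩
    rw [hv]
    simp only
    rw [norm_mul, Complex.norm_exp]
    have h1 : ((τ : ℂ) * (⟪e, x⟫ : ℝ)).re = τ * ⟪e, x⟫ := by simp
    rw [h1]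
    have h2 : ‖u x‖ ≤ K * Real.exp (-(τ * ⟪e, x⟫ + δ * ‖x‖)) := by
      rcases le_total (C * ⟪e, x⟫) (ε * ‖x‖) with h | h
      · refine (hu x).trans (mul_le_mul_of_nonneg_left (Real.exp_le_exp.2 ?_) hK0)
        have h3 : θ * (C * ⟪e, x⟫) ≤ θ * (ε * ‖x‖) := mul_le_mul_of_nonneg_left h hθ0.le
        rw [← hθC, hδ]
        nlinarith
      · refine (hu' x).trans (mul_le_mul_of_nonneg_left (Real.exp_le_exp.2 ?_) hK0)
        have h3 : (1 - θ) * (ε * ‖x‖) ≤ (1 - θ) * (C * ⟪e, x⟫) :=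
          mul_le_mul_of_nonneg_left h (by linarith)
        rw [← hθC, hδ]
        nlinarith
    calc Real.exp (τ * ⟪e, x⟫) * ‖u x‖
        ≤ Real.exp (τ * ⟪e, x⟫) * (K * Real.exp (-(τ * ⟪e, x⟫ + δ * ‖x‖))) :=
          mul_le_mul_of_nonneg_left h2 (Real.exp_pos _).le
      _ = K * Real.exp (-(δ * ‖x‖)) := by
          rw [mul_left_comm, ← Real.exp_add]
          congr 2
          ring
  -- the identity
  have hker : ∀ ξ x : E d, u x * Complex.exp (ell τ e ξ x) =
      Complex.exp (-(2 * π * ⟪x, ξ⟫ * Complex.I)) * v x := by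
    intro ξ x
    rw [hv, ell_apply]
    simp only
    rw [← mul_assoc, ← Complex.exp_add, mul_comm]
    congr 2
    rw [real_inner_comm x ξ]
    ring
  have hm₀ : Measurable fun x => (V₀ x : ℂ) := Complex.measurable_ofReal.comp hV₀
  have hb₀ : ∀ x, ‖(V₀ x : ℂ)‖ ≤ M₀ := fun x => by
    rw [Complex.norm_real, Real.norm_eq_abs]
    exact hM₀ x
  have hid0 : ∀ ξ, (∑ i : Fin d, (ell τ e ξ (EuclideanSpace.single i (1 : ℝ))) ^ 2) * 𝓕 v ξ =
      𝓕 (fun x => (V₀ x : ℂ) * v x) ξ + 𝓕 (fun x => V x * v x) ξ := by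
    intro ξ
    have hint : Integrable (fun x => u x * Complex.exp (ell τ e ξ x)) := by
      simp only [hker]
      refine (hdec.integrable hδ0).bdd_mul (c := 1) (by fun_prop)
        (Eventually.of_forall fun x => ?_)
      rw [Complex.norm_exp]
      simp
    have h1 := weak_exp (M := M₀ + M) (hm₀.add hVm) hum
      (fun x => (norm_add_le _ _).trans (add_le_add (hb₀ x) (hVM x))) hw (ell τ e ξ) hint
    rw [← fourier_add' hδ0 (hdec.bdd_mul hm₀ hb₀) (hdec.bdd_mul hVm hVM), fourier_eq, fourier_eq]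
    simp only [hker] at h1
    rw [h1]
    apply integral_congr_ae
    filter_upwards with x
    simp only [Pi.add_apply]
    ring
  obtain ⟨s', hs', hvan⟩ := vanish' hδ0 hτ0 hM hdec hV₀ hM₀ hVm hVM ha hinv hper hτ1
    (im_sum τ e) hid0
  have hsg : ∀ ξ : E d, ‖sg (a • e) ξ‖ = 2 * |Real.sin (π * (a * ⟪e, ξ⟫))| := by
    intro ξ
    rw [norm_sg, inner_smul_left]
    rfl
  have hF : ∀ ξ, 𝓕 v ξ = 0 := fourier_zero hδ0 hdec he ha hs' hsg hvan
  obtain ⟨_, hpl⟩ := hdec.planch hδ0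
  have hz : ∫ x, ‖v x‖ ^ 2 = 0 := by
    rw [← hpl]
    simp [hF]
  have hsq : Integrable (fun x => ‖v x‖ ^ 2) :=
    (memLp_two_iff_integrable_sq_norm (hdec.memLp hδ0).aestronglyMeasurable).1 (hdec.memLp hδ0)
  have hae := (integral_eq_zero_iff_of_nonneg (fun x => by positivity) hsq).1 hz
  filter_upwards [hae] with x hx
  have h1 : v x = 0 := by
    have : ‖v x‖ ^ 2 = 0 := hx
    simpa using this
  rw [hv] at h1
  simpa using h1

end Pool.Agent.TH337.LD
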