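import Pool.Agent.TH337.LD.Est

/-!
The spectral argument with a real part of the potential that does not depend on one direction.
-/

namespace Pool.Agent.TH337.LD

open MeasureTheory Filter Topology Set Metric FourierTransform
open scoped ENNReal Real RealInnerProductSpace

variable {d : ℕ}

theorem vanish' {δ τ M : ℝ} (hδ : 0 < δ) (hτ : 0 < τ) (hM : 0 ≤ M) {v : E d → ℂ}
    (hv : Dec δ v) {V₀ : E d → ℝ} (hV₀ : Measurable V₀) {M₀ : ℝ} (hM₀ : ∀ x, |V₀ x| ≤ M₀)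
    {V : E d → ℂ} (hVm : Measurable V) (hVM : ∀ x, ‖V x‖ ≤ M)
    {e : E d} {a : ℝ} (ha : 0 < a) (hinv : ∀ (t : ℝ) (x : E d), V₀ (x + t • e) = V₀ x)
    (hper : ∀ x, V (x + a • e) = V x)
    (hτa : a * M / (2 * π) < τ) {Λ : E d → ℂ} (hΛ : ∀ ξ, (Λ ξ).im = -(4 * π * τ * ⟪e, ξ⟫))
    (hid : ∀ ξ, Λ ξ * 𝓕 v ξ = 𝓕 (fun x => (V₀ x : ℂ) * v x) ξ + 𝓕 (fun x => V x * v x) ξ) :
    ∃ s' < (2:ℝ), ∀ ξ, s' < ‖sg (a • e) ξ‖ → 𝓕 v ξ = 0 := by
  have hπ := Real.pi_pos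
  set κ : ℝ := M / (4 * π * τ) with hκ
  have hκ0 : 0 ≤ κ := by positivity
  have hκM : 4 * π * τ * κ = M := by
    rw [hκ]
    field_simp
  have hκa : a * κ < 1 / 2 := by
    rw [div_lt_iff₀ (by positivity)] at hτa
    rw [hκ, mul_div_assoc', div_lt_iff₀ (by positivity)]
    nlinarith
  have hκa' : κ < 1 / (2 * a) := by
    rw [lt_div_iff₀ (by positivity)]
    nlinarith
  set κ' : ℝ := (κ + 1 / (2 * a)) / 2 with hκ'
  have h1 : κ < κ' := by rw [hκ']; linarith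
  have h2 : κ' < 1 / (2 * a) := by rw [hκ']; linarith
  have h2a : a * κ' < 1 / 2 := by
    rw [lt_div_iff₀ (by positivity)] at h2
    nlinarith
  set s₀ : ℝ := 2 * Real.sin (π * (a * κ)) with hs₀
  set s' : ℝ := 2 * Real.sin (π * (a * κ')) with hs'
  have hx0 : 0 ≤ π * (a * κ) := by positivity
  have hx1 : π * (a * κ) < π * (a * κ') := by
    apply mul_lt_mul_of_pos_left _ hπ
    exact mul_lt_mul_of_pos_left h1 ha
  have hx2 : π * (a * κ') < π / 2 := by nlinarith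
  have hs₀0 : 0 ≤ s₀ := by
    have := Real.sin_nonneg_of_nonneg_of_le_pi hx0 (by linarith)
    positivity
  have hss : s₀ < s' := by
    have := Real.sin_lt_sin_of_lt_of_le_pi_div_two (by linarith) hx2.le hx1
    linarith
  have hs2 : s' < 2 := by
    have := Real.sin_lt_sin_of_lt_of_le_pi_div_two (x := π * (a * κ')) (y := π / 2)
      (by linarith) le_rfl hx2
    rw [Real.sin_pi_div_two] at this
    linarith
  refine ⟨s', hs2, ?_⟩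
  have hs'0 : 0 < s' := hs₀0.trans_lt hss
  set c : ℝ := (4 * π * τ * κ') ^ 2 - M ^ 2 with hc
  have hc0 : 0 < c := by
    have h3 : M < 4 * π * τ * κ' := by
      rw [← hκM]
      exact mul_lt_mul_of_pos_left h1 (by positivity)
    have : M ^ 2 < (4 * π * τ * κ') ^ 2 := pow_lt_pow_left₀ h3 hM (by norm_num)
    linarith
  have hsg : ∀ ξ : E d, ‖sg (a • e) ξ‖ = 2 * |Real.sin (π * (a * ⟪e, ξ⟫))| := by
    intro ξ
    rw [norm_sg, inner_smul_left]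
    rfl
  have hsin : ∀ s t : ℝ, |s| ≤ t → a * t < 1 / 2 → 0 ≤ t →
      |Real.sin (π * (a * s))| ≤ Real.sin (π * (a * t)) := by
    intro s t hst hat ht
    have h5 : |π * (a * s)| = π * (a * |s|) := by
      rw [abs_mul, abs_mul, abs_of_pos hπ, abs_of_pos ha]
    have h6 : π * (a * |s|) ≤ π * (a * t) :=
      mul_le_mul_of_nonneg_left (mul_le_mul_of_nonneg_left hst ha.le) hπ.le
    have h7 : π * (a * t) < π / 2 := by nlinarith
    have h8 : 0 ≤ π * (a * |s|) := by positivity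
    have h9 : |Real.sin (π * (a * s))| = Real.sin (π * (a * |s|)) := by
      rcases le_total 0 s with hs | hs
      · rw [abs_of_nonneg hs, abs_of_nonneg]
        rw [abs_of_nonneg hs] at h6 h8
        exact Real.sin_nonneg_of_nonneg_of_le_pi h8 (by linarith)
      · rw [abs_of_nonpos hs] at h6 h8 ⊢
        have e1 : π * (a * s) = -(π * (a * -s)) := by ring
        rw [e1, Real.sin_neg, abs_neg, abs_of_nonneg]
        exact Real.sin_nonneg_of_nonneg_of_le_pi h8 (by linarith)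
    rw [h9]
    exact Real.sin_le_sin_of_le_of_le_pi_div_two (by linarith) h7.le h6
  have hFc : Continuous (𝓕 v) := fourier_cont hv hδ
  obtain ⟨hF2, hF2'⟩ := hv.planch hδ
  set S : Set (E d) := {ξ | s' < ‖sg (a • e) ξ‖} with hS
  have hSo : IsOpen S := isOpen_lt continuous_const (continuous_sg _)
  -- the main inequality
  have key : ∀ j : ℕ, c * (s' ^ (2 * j)) * ∫ ξ in S, ‖𝓕 v ξ‖ ^ 2 ≤
      M ^ 2 * (s₀ ^ (2 * j)) * ∫ ξ, ‖𝓕 v ξ‖ ^ 2 := by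
    intro j
    have hw := dec_dif hδ hv (a • e) j
    obtain ⟨i1, i1'⟩ := hw.planch hδ
    have hm₀ : Measurable fun x => (V₀ x : ℂ) := Complex.measurable_ofReal.comp hV₀
    have hb₀ : ∀ x, ‖(V₀ x : ℂ)‖ ≤ M₀ := fun x => by
      rw [Complex.norm_real, Real.norm_eq_abs]
      exact hM₀ x
    have hper₀ : ∀ x, (V₀ (x + a • e) : ℂ) = (V₀ x : ℂ) := fun x => by rw [hinv]
    have hVw := hw.bdd_mul hVm hVM
    have hfw : ∀ ξ, 𝓕 (dif (a • e) v j) ξ = sg (a • e) ξ ^ j * 𝓕 v ξ :=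
      fun ξ => fourier_dif hδ hv _ ξ j
    have hfVw : ∀ ξ, 𝓕 (fun x => V x * dif (a • e) v j x) ξ =
        sg (a • e) ξ ^ j * 𝓕 (fun x => V x * v x) ξ := by
      intro ξ
      rw [mul_dif hper v j]
      exact fourier_dif hδ (hv.bdd_mul hVm hVM) _ ξ j
    have hfV₀w : ∀ ξ, 𝓕 (fun x => (V₀ x : ℂ) * dif (a • e) v j x) ξ =
        sg (a • e) ξ ^ j * 𝓕 (fun x => (V₀ x : ℂ) * v x) ξ := by
      intro ξ
      rw [mul_dif (V := fun x => (V₀ x : ℂ)) hper₀ v j]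
      exact fourier_dif hδ (hv.bdd_mul hm₀ hb₀) _ ξ j
    obtain ⟨i2, i2'⟩ := est hδ hτ hw hV₀ hM₀ hinv hVm hVM hΛ (fun ξ => by
      rw [hfw, hfV₀w, hfVw, ← mul_add, ← hid]
      ring)
    have hpt : ∀ ξ, c * (s' ^ (2 * j)) * S.indicator (fun ξ => ‖𝓕 v ξ‖ ^ 2) ξ -
        M ^ 2 * (s₀ ^ (2 * j)) * ‖𝓕 v ξ‖ ^ 2 ≤
        (4 * π * τ) ^ 2 * (⟪e, ξ⟫ ^ 2 * ‖𝓕 (dif (a • e) v j) ξ‖ ^ 2) -
        M ^ 2 * ‖𝓕 (dif (a • e) v j) ξ‖ ^ 2 := by
      intro ξ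
      have h3 : (4 * π * τ * |⟪e, ξ⟫|) ^ 2 * ‖𝓕 (dif (a • e) v j) ξ‖ ^ 2 =
          (4 * π * τ) ^ 2 * (⟪e, ξ⟫ ^ 2 * ‖𝓕 (dif (a • e) v j) ξ‖ ^ 2) := by
        rw [mul_pow _ |⟪e, ξ⟫|, sq_abs]
        ring
      rw [← h3]
      have hw2 : ‖𝓕 (dif (a • e) v j) ξ‖ ^ 2 = ‖sg (a • e) ξ‖ ^ (2 * j) * ‖𝓕 v ξ‖ ^ 2 := by
        rw [hfw, norm_mul, norm_pow]
        ring
      rw [hw2]
      have hF0 : 0 ≤ ‖𝓕 v ξ‖ ^ 2 := by positivity
      have hg0 : 0 ≤ ‖sg (a • e) ξ‖ := norm_nonneg _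
      by_cases hξ : ξ ∈ S
      · rw [indicator_of_mem hξ]
        have hξ' : s' < ‖sg (a • e) ξ‖ := hξ
        have h6 : κ' ≤ |⟪e, ξ⟫| := by
          by_contra hcon
          push Not at hcon
          have := hsin ⟪e, ξ⟫ κ' hcon.le h2a (hκ0.trans h1.le)
          rw [hsg] at hξ'
          linarith
        have h7 : (4 * π * τ * κ') ^ 2 ≤ (4 * π * τ * |⟪e, ξ⟫|) ^ 2 := by
          apply pow_le_pow_left₀
          · have := hκ0.trans h1.le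
            positivity
          · exact mul_le_mul_of_nonneg_left h6 (by positivity)
        have h8 : s' ^ (2 * j) ≤ ‖sg (a • e) ξ‖ ^ (2 * j) := pow_le_pow_left₀ hs'0.le hξ'.le _
        have h9 : c * (s' ^ (2 * j)) * ‖𝓕 v ξ‖ ^ 2 ≤
            ((4 * π * τ * |⟪e, ξ⟫|) ^ 2 - M ^ 2) * (‖sg (a • e) ξ‖ ^ (2 * j) * ‖𝓕 v ξ‖ ^ 2) := by
          rw [mul_assoc]
          apply mul_le_mul _ (mul_le_mul_of_nonneg_right h8 hF0) (by positivity)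
          · linarith
          · linarith
        have h10 : 0 ≤ M ^ 2 * (s₀ ^ (2 * j)) * ‖𝓕 v ξ‖ ^ 2 := by positivity
        linarith
      · rw [indicator_of_notMem hξ]
        by_cases hs : |⟪e, ξ⟫| ≤ κ
        · have h6 : ‖sg (a • e) ξ‖ ≤ s₀ := by
            rw [hsg]
            have := hsin ⟪e, ξ⟫ κ hs hκa hκ0
            linarith
          have h7 : ‖sg (a • e) ξ‖ ^ (2 * j) ≤ s₀ ^ (2 * j) := pow_le_pow_left₀ hg0 h6 _
          have h8 : ‖sg (a • e) ξ‖ ^ (2 * j) * ‖𝓕 v ξ‖ ^ 2 ≤ s₀ ^ (2 * j) * ‖𝓕 v ξ‖ ^ 2 :=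
            mul_le_mul_of_nonneg_right h7 hF0
          have h9 : 0 ≤ (4 * π * τ * |⟪e, ξ⟫|) ^ 2 * (‖sg (a • e) ξ‖ ^ (2 * j) * ‖𝓕 v ξ‖ ^ 2) := by
            positivity
          have h10 : M ^ 2 * (‖sg (a • e) ξ‖ ^ (2 * j) * ‖𝓕 v ξ‖ ^ 2) ≤
              M ^ 2 * (s₀ ^ (2 * j) * ‖𝓕 v ξ‖ ^ 2) := mul_le_mul_of_nonneg_left h8 (by positivity)
          linarith
        · push Not at hs
          have h6 : M ^ 2 ≤ (4 * π * τ * |⟪e, ξ⟫|) ^ 2 := by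
            apply pow_le_pow_left₀ hM
            rw [← hκM]
            exact mul_le_mul_of_nonneg_left hs.le (by positivity)
          have h7 : 0 ≤ ((4 * π * τ * |⟪e, ξ⟫|) ^ 2 - M ^ 2) *
              (‖sg (a • e) ξ‖ ^ (2 * j) * ‖𝓕 v ξ‖ ^ 2) :=
            mul_nonneg (by linarith) (by positivity)
          have h10 : 0 ≤ M ^ 2 * (s₀ ^ (2 * j)) * ‖𝓕 v ξ‖ ^ 2 := by positivity
          linarith
    have hind : Integrable (S.indicator (fun ξ => ‖𝓕 v ξ‖ ^ 2)) := hF2.indicator hSo.measurableSet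
    have h3 := integral_mono ((hind.const_mul (c * (s' ^ (2 * j)))).sub
      (hF2.const_mul (M ^ 2 * (s₀ ^ (2 * j))))) ((i2.const_mul ((4 * π * τ) ^ 2)).sub
      (i1.const_mul (M ^ 2))) hpt
    have e3 : ∫ ξ, (c * (s' ^ (2 * j)) * S.indicator (fun ξ => ‖𝓕 v ξ‖ ^ 2) ξ -
        M ^ 2 * (s₀ ^ (2 * j)) * ‖𝓕 v ξ‖ ^ 2) =
        c * (s' ^ (2 * j)) * (∫ ξ in S, ‖𝓕 v ξ‖ ^ 2) -
        M ^ 2 * (s₀ ^ (2 * j)) * ∫ ξ, ‖𝓕 v ξ‖ ^ 2 := by
      rw [integral_sub (hind.const_mul _) (hF2.const_mul _), integral_const_mul,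
        integral_const_mul, integral_indicator hSo.measurableSet]
    have e4 : ∫ ξ, ((4 * π * τ) ^ 2 * (⟪e, ξ⟫ ^ 2 * ‖𝓕 (dif (a • e) v j) ξ‖ ^ 2) -
        M ^ 2 * ‖𝓕 (dif (a • e) v j) ξ‖ ^ 2) =
        (4 * π * τ) ^ 2 * (∫ ξ, ⟪e, ξ⟫ ^ 2 * ‖𝓕 (dif (a • e) v j) ξ‖ ^ 2) -
        M ^ 2 * ∫ x, ‖dif (a • e) v j x‖ ^ 2 := by
      rw [integral_sub (i2.const_mul _) (i1.const_mul _), integral_const_mul, integral_const_mul,
        i1']
    have h4 : ∫ x, ‖V x * dif (a • e) v j x‖ ^ 2 ≤ M ^ 2 * ∫ x, ‖dif (a • e) v j x‖ ^ 2 := by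
      rw [← integral_const_mul]
      have hm1 : Integrable (fun x => ‖V x * dif (a • e) v j x‖ ^ 2) :=
        (memLp_two_iff_integrable_sq_norm (hVw.memLp hδ).aestronglyMeasurable).1 (hVw.memLp hδ)
      have hm2 : Integrable (fun x => ‖dif (a • e) v j x‖ ^ 2) :=
        (memLp_two_iff_integrable_sq_norm (hw.memLp hδ).aestronglyMeasurable).1 (hw.memLp hδ)
      apply integral_mono hm1 (hm2.const_mul _)
      intro x
      simp only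
      rw [norm_mul, mul_pow]
      exact mul_le_mul_of_nonneg_right (pow_le_pow_left₀ (norm_nonneg _) (hVM x) 2) (by positivity)
    have h5 : c * (s' ^ (2 * j)) * (∫ ξ in S, ‖𝓕 v ξ‖ ^ 2) -
        M ^ 2 * (s₀ ^ (2 * j)) * ∫ ξ, ‖𝓕 v ξ‖ ^ 2 ≤
        (4 * π * τ) ^ 2 * (∫ ξ, ⟪e, ξ⟫ ^ 2 * ‖𝓕 (dif (a • e) v j) ξ‖ ^ 2) -
        M ^ 2 * ∫ x, ‖dif (a • e) v j x‖ ^ 2 := by
      rw [← e3, ← e4]
      exact h3
    linarith
  -- let j tend to infinity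
  have hI0 : 0 ≤ ∫ ξ in S, ‖𝓕 v ξ‖ ^ 2 := integral_nonneg fun ξ => by positivity
  have hzero : ∫ ξ in S, ‖𝓕 v ξ‖ ^ 2 = 0 := by
    set q : ℝ := (s₀ / s') ^ 2 with hq
    have hq0 : 0 ≤ q := by positivity
    have hq1 : q < 1 := by
      have h3 : s₀ / s' < 1 := by
        rw [div_lt_one hs'0]
        exact hss
      have h4 : 0 ≤ s₀ / s' := by positivity
      rw [hq]
      nlinarith
    have hb : ∀ j : ℕ, ∫ ξ in S, ‖𝓕 v ξ‖ ^ 2 ≤ (M ^ 2 * (∫ ξ, ‖𝓕 v ξ‖ ^ 2) / c) * q ^ j := by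
      intro j
      have h3 := key j
      have hsj : 0 < s' ^ (2 * j) := by positivity
      have e5 : (M ^ 2 * (∫ ξ, ‖𝓕 v ξ‖ ^ 2) / c) * q ^ j =
          (M ^ 2 * (s₀ ^ (2 * j)) * ∫ ξ, ‖𝓕 v ξ‖ ^ 2) / (c * (s' ^ (2 * j))) := by
        rw [hq, ← pow_mul, div_pow]
        field_simp
      rw [e5, le_div_iff₀ (by positivity)]
      linarith
    have hlim : Tendsto (fun j : ℕ => (M ^ 2 * (∫ ξ, ‖𝓕 v ξ‖ ^ 2) / c) * q ^ j) atTop
        (𝓝 ((M ^ 2 * (∫ ξ, ‖𝓕 v ξ‖ ^ 2) / c) * 0)) :=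
      (tendsto_pow_atTop_nhds_zero_of_lt_one hq0 hq1).const_mul _
    rw [mul_zero] at hlim
    exact le_antisymm (ge_of_tendsto' hlim hb) hI0
  intro ξ hξ
  by_contra hne
  have hO : IsOpen (S ∩ {ξ | 𝓕 v ξ ≠ 0}) := hSo.inter (isOpen_ne_fun hFc continuous_const)
  have hpos := hO.measure_pos volume ⟨ξ, hξ, hne⟩
  have hae := (setIntegral_eq_zero_iff_of_nonneg_ae (Eventually.of_forall fun ξ => by positivity)
    hF2.integrableOn).1 hzero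
  have h3 : volume (S ∩ {ξ | 𝓕 v ξ ≠ 0}) = 0 := by
    rw [Filter.EventuallyEq, ae_restrict_iff' hSo.measurableSet, ae_iff] at hae
    refine measure_mono_null ?_ hae
    intro ζ hζ
    simp only [mem_setOf_eq, Classical.not_imp]
    refine ⟨hζ.1, ?_⟩
    have : 𝓕 v ζ ≠ 0 := hζ.2
    simp [this]
  exact hpos.ne' h3


end Pool.Agent.TH337.LD
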